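import Mathlib
import Pool.Agent.H55.FreeV3

namespace Pool.Agent.Results.MP_723ccc_gt.TightTwoFour

open Pool.Agent.H55.FreeV TopologicalSpace

/-- For metrizable `X`, countable tightness of `sp_2(X)` implies that of `sp_4(X)`. -/
theorem result (X V : Type) [TopologicalSpace X] [MetrizableSpace X] [AddCommGroup V] [Module ℝ V]
    [TopologicalSpace V] [IsTopologicalAddGroup V] [ContinuousSMul ℝ V] [T2Space V]
    (i : X → V) (hi : IsFreeTVS i) (h : CountablyTight (sp i 2)) : CountablyTight (sp i 4) := by
  let _ := metrizableSpaceMetric X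
  have := sep_of_tight hi 0 h
  exact tight_of_sep hi 4

end Pool.Agent.Results.MP_723ccc_gt.TightTwoFour
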